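import Mathlib

/-!
# The finite-set poset of an Eberlein-Grothendieck scattered space need not be ccc

The space `X` is the tree of all nonempty finite sequences `((α₀, ξ₀), …, (αₖ, ξₖ))` of pairs of
countable ordinals with `α₀ > … > αₖ`, with the topology generated by the cones and their
complements. The scattering level of such a node is `αₖ`. A node with `αₖ > 0` has uncountably many
immediate successors of level `0`, all but finitely many of which are in a given neighbourhood. So
every open set `V` which contains a non-isolated point is uncountable, and for `V ∈ 𝓥` the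
conditions `{y}`, `y ∈ V`, are pairwise incompatible, whatever the choices of `U` and `𝓥` are.
-/

set_option autoImplicit false

open Topology Ordinal Cardinal

namespace Pool.Agent.Results.MP_8301b4_gt.NeverCCC

/-- `X` is homeomorphic to a subspace of `C_p(K)` for some compact Hausdorff space `K`: there is an
embedding of `X` into `K → ℝ` (with the product topology) all values of which are continuous. -/
def EberleinGrothendieck (X : Type) [TopologicalSpace X] : Prop :=
  ∃ (K : Type) (_ : TopologicalSpace K) (φ : X → K → ℝ), CompactSpace K ∧ T2Space K ∧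
    (∀ x, Continuous (φ x)) ∧ IsEmbedding φ

/-- `𝓥` is a point-countable family of open sets. -/
def PointCountableOpen {X : Type} [TopologicalSpace X] (𝓥 : Set (Set X)) : Prop :=
  (∀ V ∈ 𝓥, IsOpen V) ∧ ∀ x, {V | V ∈ 𝓥 ∧ x ∈ V}.Countable

/-- Every open cover has a point-countable open refinement. -/
def MetaLindelof (X : Type) [TopologicalSpace X] : Prop :=
  ∀ 𝓤 : Set (Set X), (∀ U ∈ 𝓤, IsOpen U) → ⋃₀ 𝓤 = Set.univ →
    ∃ 𝓥 : Set (Set X), PointCountableOpen 𝓥 ∧ ⋃₀ 𝓥 = Set.univ ∧ ∀ V ∈ 𝓥, ∃ U ∈ 𝓤, V ⊆ U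

/-- Every subspace is meta-Lindelöf. -/
def HereditarilyMetaLindelof (X : Type) [TopologicalSpace X] : Prop :=
  ∀ Y : Set X, MetaLindelof Y

/-- Every nonempty subspace has an isolated point. -/
def Scattered (X : Type) [TopologicalSpace X] : Prop :=
  ∀ A : Set X, A.Nonempty → ∃ x ∈ A, ∃ U : Set X, IsOpen U ∧ U ∩ A = {x}

/-- The non-isolated points of the subspace `A`. -/
def nonIsolated {X : Type} [TopologicalSpace X] (A : Set X) : Set X :=
  {x | x ∈ A ∧ ∀ U : Set X, IsOpen U → x ∈ U → ∃ y ∈ U ∩ A, y ≠ x}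

/-- The Cantor-Bendixson derivatives `X^(α)`. -/
noncomputable def deriv (X : Type) [TopologicalSpace X] (α : Ordinal.{0}) : Set X :=
  Ordinal.limitRecOn α Set.univ (fun _ A => nonIsolated A) (fun β _ A => ⋂ (γ) (h : γ < β), A γ h)

/-- The scattering level number `α`: the set `X^(α) \ X^(α+1)`. -/
noncomputable def level (X : Type) [TopologicalSpace X] (α : Ordinal.{0}) : Set X :=
  deriv X α \ deriv X (α + 1)

/-- The height of `X` is `α`: the least ordinal with `X^(α) = ∅`. -/
def HasHeight (X : Type) [TopologicalSpace X] (α : Ordinal.{0}) : Prop :=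
  IsLeast {β | deriv X β = ∅} α

/-- The sets `U x` are open, contain `x` and meet the scattering level of `x` only in `{x}`, and `𝓥`
is a point-countable open refinement of the cover by the sets `U x`. -/
def IsChoice {X : Type} [TopologicalSpace X] (U : X → Set X) (𝓥 : Set (Set X)) : Prop :=
  (∀ x, IsOpen (U x) ∧ ∀ α, x ∈ level X α → U x ∩ level X α = {x}) ∧
    PointCountableOpen 𝓥 ∧ ⋃₀ 𝓥 = Set.univ ∧ ∀ V ∈ 𝓥, ∃ x, V ⊆ U x

/-- The set `V_x`: the union of all members of `𝓥` that contain `x`. -/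
def star {X : Type} (𝓥 : Set (Set X)) (x : X) : Set X := ⋃₀ {V | V ∈ 𝓥 ∧ x ∈ V}

/-- The poset `P`; its order is reverse inclusion. -/
def Poset {X : Type} (𝓥 : Set (Set X)) : Set (Set X) :=
  {p | p.Finite ∧ ∀ x ∈ p, star 𝓥 x ∩ p = {x}}

/-- The conditions `p` and `q` are compatible. -/
def Compatible {X : Type} (𝓥 : Set (Set X)) (p q : Set X) : Prop :=
  ∃ r ∈ Poset 𝓥, p ⊆ r ∧ q ⊆ r

/-- `P` has the countable chain condition: every family of pairwise incompatible elements is
countable. -/
def CCC {X : Type} (𝓥 : Set (Set X)) : Prop :=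
  ∀ 𝒜 ⊆ Poset 𝓥, (∀ p ∈ 𝒜, ∀ q ∈ 𝒜, p ≠ q → ¬ Compatible 𝓥 p q) → 𝒜.Countable

theorem deriv_zero (X : Type) [TopologicalSpace X] : deriv X 0 = Set.univ :=
  Ordinal.limitRecOn_zero _ _ _

theorem deriv_add_one (X : Type) [TopologicalSpace X] (α : Ordinal.{0}) :
    deriv X (α + 1) = nonIsolated (deriv X α) :=
  Ordinal.limitRecOn_add_one _ _ _ _

theorem deriv_limit (X : Type) [TopologicalSpace X] {α : Ordinal.{0}}
    (h : Order.IsSuccLimit α) : deriv X α = ⋂ (γ) (_ : γ < α), deriv X γ :=
  Ordinal.limitRecOn_limit _ _ _ _ h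

/-! ### The tree -/

/-- The well-ordered set of the countable ordinals. -/
abbrev Om : Type := (ℵ_ 1).ord.ToType

/-- A node: the last pair `(a, x)` of the sequence and the list of the previous pairs, in reverse
order. -/
structure Node where
  /-- the last ordinal -/
  a : Om
  /-- the last index -/
  x : Om
  /-- the previous pairs -/
  rest : List (Om × Om)
  /-- the ordinals decrease along the sequence -/
  chain : List.Pairwise (fun p q : Om × Om => p.1 < q.1) ((a, x) :: rest)

/-- The sequence, in reverse order. -/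
def Node.toList (t : Node) : List (Om × Om) := (t.a, t.x) :: t.rest

theorem Node.ext' {s t : Node} (h : s.toList = t.toList) : s = t := by
  obtain ⟨a, x, l, hl⟩ := s
  obtain ⟨b, y, m, hm⟩ := t
  simp only [Node.toList, List.cons.injEq, Prod.mk.injEq] at h
  obtain ⟨⟨rfl, rfl⟩, rfl⟩ := h
  rfl

/-- The tree order. -/
def le (s t : Node) : Prop := s.toList <:+ t.toList

theorem le_refl' (t : Node) : le t t := List.suffix_refl _

theorem le_trans' {r s t : Node} (h : le r s) (h' : le s t) : le r t := List.IsSuffix.trans h h'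

theorem eq_or_suffix {s t : Node} (h : le s t) : s = t ∨ s.toList <:+ t.rest := by
  rcases List.suffix_cons_iff.1 h with h | h
  · exact Or.inl (Node.ext' h)
  · exact Or.inr h

theorem lt_of_le {s t : Node} (h : le s t) (hne : s ≠ t) : t.a < s.a := by
  have h1 := (eq_or_suffix h).resolve_left hne
  have h2 : (s.a, s.x) ∈ t.rest := h1.subset (List.mem_cons_self)
  exact (List.pairwise_cons.1 t.chain).1 _ h2

theorem le_antisymm' {s t : Node} (h : le s t) (h' : le t s) : s = t := by
  by_contra hne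
  exact lt_asymm (lt_of_le h hne) (lt_of_le h' (Ne.symm hne))

/-- The immediate successor of `t` given by a pair. -/
def child (t : Node) (g ξ : Om) (h : g < t.a) : Node where
  a := g
  x := ξ
  rest := t.toList
  chain := by
    refine List.pairwise_cons.2 ⟨fun p hp => ?_, t.chain⟩
    rcases List.mem_cons.1 hp with rfl | hp
    · exact h
    · exact h.trans ((List.pairwise_cons.1 t.chain).1 p hp)

theorem le_child (t : Node) (g ξ : Om) (h : g < t.a) : le t (child t g ξ h) :=
  List.suffix_cons _ _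

theorem le_child_iff {e t : Node} {g ξ : Om} (h : g < t.a) :
    le e (child t g ξ h) ↔ e = child t g ξ h ∨ le e t := by
  constructor
  · intro h'
    rcases eq_or_suffix h' with h' | h'
    · exact Or.inl h'
    · exact Or.inr h'
  · rintro (rfl | h')
    · exact le_refl' _
    · exact le_trans' h' (le_child t g ξ h)

theorem finite_le (t : Node) : {e | le e t}.Finite := by
  refine Set.Finite.of_finite_image (f := Node.toList) ?_ (fun s _ t _ h => Node.ext' h)
  refine (List.finite_toSet t.toList.tails).subset ?_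
  rintro _ ⟨e, he, rfl⟩
  exact (List.mem_tails _ _).2 he

/-! ### The topology -/

/-- A discrete copy of the set of the nodes. -/
inductive Disc : Type
  | mk : Node → Disc

instance : TopologicalSpace Disc := ⊥

instance : DiscreteTopology Disc := ⟨rfl⟩

open scoped Classical in
/-- The function on the one-point compactification of the set of nodes which is the
characteristic function of the set of the predecessors of the node `t`. -/
noncomputable def phi (t : Node) : OnePoint Disc → ℝ :=
  fun k => if ∃ e, le e t ∧ k = ((Disc.mk e : Disc) : OnePoint Disc) then 1 else 0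

theorem phi_coe_eq_one {e t : Node} : phi t ((Disc.mk e : Disc) : OnePoint Disc) = 1 ↔ le e t := by
  unfold phi
  split_ifs with h
  · obtain ⟨e', he', h⟩ := h
    have h1 := OnePoint.coe_injective h
    have h2 : e = e' := by injection h1
    exact ⟨fun _ => h2 ▸ he', fun _ => rfl⟩
  · refine ⟨fun h0 => absurd h0 zero_ne_one, fun h0 => absurd ⟨e, h0, rfl⟩ h⟩

theorem phi_congr {s t : Node} {k : OnePoint Disc}
    (h : ∀ e, k = ((Disc.mk e : Disc) : OnePoint Disc) → (le e s ↔ le e t)) : phi s k = phi t k := by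
  unfold phi
  by_cases hs : ∃ e, le e s ∧ k = ((Disc.mk e : Disc) : OnePoint Disc)
  · obtain ⟨e, he, hk⟩ := hs
    rw [if_pos ⟨e, he, hk⟩, if_pos ⟨e, (h e hk).1 he, hk⟩]
  · rw [if_neg hs, if_neg]
    rintro ⟨e, he, hk⟩
    exact hs ⟨e, (h e hk).2 he, hk⟩

theorem continuous_phi (t : Node) : Continuous (phi t) := by
  classical
  have hfin : {k : OnePoint Disc | ∃ e, le e t ∧ k = ((Disc.mk e : Disc) : OnePoint Disc)}.Finite := by
    refine ((finite_le t).image fun e => ((Disc.mk e : Disc) : OnePoint Disc)).subset ?_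
    rintro k ⟨e, he, rfl⟩
    exact ⟨e, he, rfl⟩
  have hclopen : IsClopen
      {k : OnePoint Disc | ∃ e, le e t ∧ k = ((Disc.mk e : Disc) : OnePoint Disc)} := by
    refine ⟨hfin.isClosed, ?_⟩
    have : {k : OnePoint Disc | ∃ e, le e t ∧ k = ((Disc.mk e : Disc) : OnePoint Disc)} =
        (fun d : Disc => (d : OnePoint Disc)) '' {d | ∃ e, le e t ∧ d = Disc.mk e} := by
      ext k
      constructor
      · rintro ⟨e, he, rfl⟩
        exact ⟨Disc.mk e, ⟨e, he, rfl⟩, rfl⟩
      · rintro ⟨_, ⟨e, he, rfl⟩, rfl⟩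
        exact ⟨e, he, rfl⟩
    rw [this]
    exact OnePoint.isOpenEmbedding_coe.isOpenMap _ (isOpen_discrete _)
  refine ((IsLocallyConstant.iff_exists_open (phi t)).2 fun k => ?_).continuous
  by_cases hk : ∃ e, le e t ∧ k = ((Disc.mk e : Disc) : OnePoint Disc)
  · refine ⟨_, hclopen.isOpen, hk, fun k' hk' => ?_⟩
    have hk'' : ∃ e, le e t ∧ k' = ((Disc.mk e : Disc) : OnePoint Disc) := hk'
    unfold phi
    rw [if_pos hk, if_pos hk'']
  · refine ⟨_, hclopen.compl.isOpen, hk, fun k' hk' => ?_⟩
    have hk'' : ¬ ∃ e, le e t ∧ k' = ((Disc.mk e : Disc) : OnePoint Disc) := hk'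
    unfold phi
    rw [if_neg hk, if_neg hk'']

noncomputable instance : TopologicalSpace Node := TopologicalSpace.induced phi inferInstance

theorem isEmbedding_phi : IsEmbedding phi := by
  refine ⟨⟨rfl⟩, fun s t h => ?_⟩
  refine le_antisymm' ?_ ?_
  · rw [← phi_coe_eq_one, ← h, phi_coe_eq_one]
    exact le_refl' s
  · rw [← phi_coe_eq_one, h, phi_coe_eq_one]
    exact le_refl' t

/-- The cones are open. -/
theorem isOpen_cone (e : Node) : IsOpen {t | le e t} := by
  have : {t | le e t} = phi ⁻¹' {f | f ((Disc.mk e : Disc) : OnePoint Disc) ∈ Set.Ioi (1 / 2 : ℝ)} := by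
    ext t
    simp only [Set.mem_ofPred_eq, Set.mem_preimage, Set.mem_Ioi]
    rw [← phi_coe_eq_one]
    constructor
    · intro h
      rw [h]
      norm_num
    · intro h
      by_contra hne
      have h0 : phi t ((Disc.mk e : Disc) : OnePoint Disc) = 0 := by
        unfold phi
        refine if_neg fun h' => hne ?_
        unfold phi
        exact if_pos h'
      rw [h0] at h
      norm_num at h
  rw [this]
  exact (isOpen_Ioi.preimage (continuous_apply _)).preimage continuous_induced_dom

/-- A neighbourhood of `t` contains all nodes which have the same predecessors as `t` in some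
finite set. -/
theorem exists_finite_of_isOpen {U : Set Node} (hU : IsOpen U) {t : Node} (ht : t ∈ U) :
    ∃ E : Set Node, E.Finite ∧ ∀ s, (∀ e ∈ E, le e s ↔ le e t) → s ∈ U := by
  obtain ⟨W, hW, rfl⟩ := isOpen_induced_iff.1 hU
  obtain ⟨I, V, hV, hsub⟩ := isOpen_pi_iff.1 hW (phi t) ht
  refine ⟨{e | ((Disc.mk e : Disc) : OnePoint Disc) ∈ I}, ?_, fun s hs => hsub fun k hk => ?_⟩
  · refine I.finite_toSet.preimage ?_
    intro e _ e' _ h
    have h1 := OnePoint.coe_injective h
    injection h1
  · have : phi s k = phi t k := phi_congr fun e he => hs e (by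
      show ((Disc.mk e : Disc) : OnePoint Disc) ∈ I
      rw [← he]
      exact hk)
    rw [this]
    exact (hV k hk).2

/-- The ordinal of the last pair. -/
noncomputable def lvl (t : Node) : Ordinal.{0} := (Ordinal.ToType.toOrd t.a : Ordinal)

theorem lvl_lt_iff {s t : Node} : lvl s < lvl t ↔ s.a < t.a := by
  unfold lvl
  rw [Subtype.coe_lt_coe]
  exact (OrderIso.lt_iff_lt _)

theorem lvl_lt_omega (t : Node) : lvl t < (ℵ_ 1).ord := (Ordinal.ToType.toOrd t.a).2

theorem exists_child {t : Node} {γ : Ordinal.{0}} (h : γ < lvl t) :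
    ∃ (g : Om) (hg : g < t.a), ∀ ξ, lvl (child t g ξ hg) = γ := by
  let g : Om := Ordinal.ToType.mk ⟨γ, h.trans (lvl_lt_omega t)⟩
  have hg0 : ((Ordinal.ToType.toOrd g : Set.Iio (ℵ_ 1).ord) : Ordinal) = γ := by
    simp [g, Ordinal.ToType.toOrd]
  have hg : g < t.a := by
    have : Ordinal.ToType.toOrd g < Ordinal.ToType.toOrd t.a := by
      rw [← Subtype.coe_lt_coe, hg0]
      exact h
    exact (OrderIso.lt_iff_lt _).1 this
  exact ⟨g, hg, fun ξ => hg0⟩

theorem uncountable_om : Uncountable Om := by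
  rw [← Cardinal.aleph0_lt_mk_iff, Cardinal.mk_ord_toType]
  exact Cardinal.aleph0_lt_aleph_one

/-- All but finitely many children with a given ordinal are in a given neighbourhood. -/
theorem finite_children {U : Set Node} (hU : IsOpen U) {t : Node} (ht : t ∈ U) (g : Om)
    (hg : g < t.a) : {ξ | child t g ξ hg ∉ U}.Finite := by
  obtain ⟨E, hE, h⟩ := exists_finite_of_isOpen hU ht
  refine (hE.image Node.x).subset fun ξ hξ => ?_
  by_contra hcon
  refine hξ (h _ fun e he => ?_)
  rw [le_child_iff]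
  refine ⟨fun h' => h'.resolve_left ?_, Or.inr⟩
  rintro rfl
  exact hcon ⟨_, he, rfl⟩

theorem deriv_eq (γ : Ordinal.{0}) : deriv Node γ = {t | γ ≤ lvl t} := by
  induction γ using Ordinal.limitRecOn with
  | zero =>
    rw [deriv_zero]
    exact (Set.eq_univ_of_forall fun t => (zero_le : (0 : Ordinal.{0}) ≤ lvl t)).symm
  | add_one γ ih =>
    rw [deriv_add_one, ih]
    ext t
    constructor
    · rintro ⟨h1, h2⟩
      have h1' : γ ≤ lvl t := h1
      obtain ⟨s, ⟨hs1, hs2⟩, hs3⟩ := h2 _ (isOpen_cone t) (le_refl' t)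
      have h3 : lvl s < lvl t := lvl_lt_iff.2 (lt_of_le hs1 hs3.symm)
      exact Order.add_one_le_of_lt (lt_of_le_of_lt hs2 h3)
    · intro h
      have h1 : γ < lvl t := Order.add_one_le_iff.1 h
      refine ⟨h1.le, fun U hU htU => ?_⟩
      obtain ⟨g, hg, hlvl⟩ := exists_child h1
      have hfin := finite_children hU htU g hg
      have := uncountable_om
      obtain ⟨ξ, hξ⟩ := hfin.exists_notMem
      have hξ' : child t g ξ hg ∈ U := by
        by_contra hcon
        exact hξ hcon
      refine ⟨_, ⟨hξ', (hlvl ξ).ge⟩, fun heq => ?_⟩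
      have h2 : (child t g ξ hg).a = t.a := by rw [heq]
      exact hg.ne h2
  | limit γ hγ ih =>
    rw [deriv_limit _ hγ]
    ext t
    simp only [Set.mem_iInter]
    constructor
    · intro h
      by_contra hcon
      have h1 : lvl t < γ := not_le.1 hcon
      have h2 : lvl t + 1 < γ := hγ.add_one_lt h1
      have h3 := h _ h2
      rw [ih _ h2] at h3
      have h3' : lvl t + 1 ≤ lvl t := h3
      exact absurd (Order.add_one_le_iff.1 h3') (lt_irrefl _)
    · intro h δ hδ
      rw [ih _ hδ]
      exact hδ.le.trans h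

theorem mem_level {t : Node} {γ : Ordinal.{0}} : t ∈ level Node γ ↔ lvl t = γ := by
  unfold level
  rw [deriv_eq, deriv_eq]
  constructor
  · rintro ⟨h1, h2⟩
    refine le_antisymm ?_ h1
    by_contra hcon
    exact h2 (Order.add_one_le_of_lt (not_le.1 hcon))
  · rintro rfl
    refine ⟨le_refl (lvl t), fun h => ?_⟩
    have h' : lvl t + 1 ≤ lvl t := h
    exact absurd (Order.add_one_le_iff.1 h') (lt_irrefl _)

/-! ### The properties of the space -/

theorem scattered : Scattered Node := by
  intro A hA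
  obtain ⟨t, htA, hmin⟩ := WellFounded.has_min (wellFounded_lt (α := Om)) (Node.a '' A)
    (hA.image _)
  obtain ⟨t, ht, rfl⟩ := htA
  refine ⟨t, ht, _, isOpen_cone t, ?_⟩
  ext s
  constructor
  · rintro ⟨h1, h2⟩
    by_contra hne
    exact hmin _ ⟨s, h2, rfl⟩ (lt_of_le h1 (fun h => hne h.symm))
  · rintro rfl
    exact ⟨le_refl' _, ht⟩

theorem hereditarilyMetaLindelof : HereditarilyMetaLindelof Node := by
  intro Y 𝓤 hopen hcov
  have h1 : ∀ y : Y, ∃ U ∈ 𝓤, y ∈ U := fun y => by
    have : y ∈ ⋃₀ 𝓤 := hcov ▸ Set.mem_univ y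
    exact this
  choose U hU hyU using h1
  let O : Y → Set Y := fun y => U y ∩ {z | le (y : Node) z}
  refine ⟨Set.range O, ⟨?_, fun x => ?_⟩, ?_, ?_⟩
  · rintro _ ⟨y, rfl⟩
    exact (hopen _ (hU y)).inter ((isOpen_cone (y : Node)).preimage continuous_subtype_val)
  · have hfin : {y : Y | le (y : Node) x}.Finite :=
      Set.Finite.preimage (f := fun y : Y => (y : Node)) Subtype.val_injective.injOn
        (finite_le (x : Node))
    refine ((hfin.image O).subset ?_).countable
    rintro _ ⟨⟨y, rfl⟩, hx⟩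
    exact ⟨y, hx.2, rfl⟩
  · exact Set.eq_univ_of_forall fun y => ⟨_, ⟨y, rfl⟩, hyU y, le_refl' _⟩
  · rintro _ ⟨y, rfl⟩
    exact ⟨U y, hU y, Set.inter_subset_left⟩

theorem eberleinGrothendieck : EberleinGrothendieck Node :=
  ⟨OnePoint Disc, inferInstance, phi, inferInstance, inferInstance, continuous_phi, isEmbedding_phi⟩

instance : T35Space Node := isEmbedding_phi.t35Space

theorem exists_lvl {γ : Ordinal.{0}} (h : γ < (ℵ_ 1).ord) (ξ : Om) :
    ∃ t : Node, lvl t = γ ∧ t.x = ξ :=
  ⟨⟨Ordinal.ToType.mk ⟨γ, h⟩, ξ, [], List.pairwise_singleton _ _⟩,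
    by simp [lvl, Ordinal.ToType.toOrd], rfl⟩

theorem hasHeight : HasHeight Node (ω_ 1) := by
  rw [← Cardinal.ord_aleph]
  refine ⟨?_, fun γ hγ => ?_⟩
  · show deriv Node _ = ∅
    rw [deriv_eq]
    exact Set.eq_empty_of_forall_notMem fun t ht => absurd (lvl_lt_omega t) (not_lt.2 ht)
  · by_contra hcon
    have hγ' : deriv Node γ = ∅ := hγ
    rw [deriv_eq] at hγ'
    have := uncountable_om
    obtain ⟨t, ht, _⟩ := exists_lvl (not_le.1 hcon) (Classical.arbitrary Om)
    exact Set.notMem_empty t (hγ' ▸ (ht.ge : t ∈ {t | γ ≤ lvl t}))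

theorem mk_node : #Node = ℵ_ 1 := by
  have := uncountable_om
  have hOm : #Om = ℵ_ 1 := Cardinal.mk_ord_toType _
  refine le_antisymm ?_ ?_
  · have h1 : #Node ≤ #(List (Om × Om)) :=
      Cardinal.mk_le_of_injective (f := Node.toList) fun s t h => Node.ext' h
    refine h1.trans ?_
    rw [Cardinal.mk_list_eq_mk, Cardinal.mk_prod, Cardinal.lift_id, hOm]
    exact (Cardinal.mul_eq_self (Cardinal.aleph0_le_aleph 1)).le
  · rw [← hOm]
    refine Cardinal.mk_le_of_injective
      (f := fun ξ : Om => (⟨ξ, ξ, [], List.pairwise_singleton _ _⟩ : Node)) fun a b h => ?_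
    injection h

theorem exists_isChoice : ∃ U 𝓥, IsChoice (X := Node) U 𝓥 := by
  have hU : ∀ x : Node, IsOpen {t : Node | le x t} := isOpen_cone
  obtain ⟨𝓥, h1, h2, h3⟩ : ∃ 𝓥 : Set (Set Node), PointCountableOpen 𝓥 ∧ ⋃₀ 𝓥 = Set.univ ∧
      ∀ V ∈ 𝓥, ∃ x : Node, V ⊆ {t | le x t} := by
    refine ⟨Set.range fun x => {t : Node | le x t}, ⟨?_, fun x => ?_⟩, ?_, ?_⟩
    · rintro _ ⟨x, rfl⟩
      exact hU x
    · refine (((finite_le x).image fun x => {t : Node | le x t}).subset ?_).countable
      rintro _ ⟨⟨y, rfl⟩, hx⟩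
      exact ⟨y, hx, rfl⟩
    · exact Set.eq_univ_of_forall fun y => ⟨_, ⟨y, rfl⟩, le_refl' _⟩
    · rintro _ ⟨x, rfl⟩
      exact ⟨x, subset_rfl⟩
  refine ⟨fun x => {t | le x t}, 𝓥, fun x => ⟨hU x, fun α hα => ?_⟩, h1, h2, h3⟩
  rw [mem_level] at hα
  ext s
  constructor
  · rintro ⟨h4, h5⟩
    rw [mem_level] at h5
    by_contra hne
    have := lvl_lt_iff.2 (lt_of_le h4 fun h => hne h.symm)
    rw [h5, hα] at this
    exact lt_irrefl _ this
  · rintro rfl
    exact ⟨le_refl' _, mem_level.2 hα⟩

theorem uncountable_of_isOpen {V : Set Node} (hV : IsOpen V) {t : Node} (ht : t ∈ V)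
    (h : 0 < lvl t) : ¬ V.Countable := by
  intro hc
  obtain ⟨g, hg, _⟩ := exists_child h
  have hfin := finite_children hV ht g hg
  have hinj : Function.Injective fun ξ => child t g ξ hg := fun a b hab => by
    have : (child t g a hg).x = (child t g b hg).x := by rw [show child t g a hg = _ from hab]
    exact this
  have h1 : {ξ | child t g ξ hg ∈ V}.Countable := hc.preimage_of_injOn hinj.injOn
  have h2 : (Set.univ : Set Om).Countable := by
    refine (h1.union hfin.countable).mono fun ξ _ => ?_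
    by_cases hξ : child t g ξ hg ∈ V
    · exact Or.inl hξ
    · exact Or.inr hξ
  have := uncountable_om
  exact Set.not_countable_univ h2

theorem never_ccc {U : Node → Set Node} {𝓥 : Set (Set Node)} (h : IsChoice U 𝓥) : ¬ CCC 𝓥 := by
  intro hccc
  obtain ⟨_, ⟨hopen, _⟩, hcov, _⟩ := h
  have hmem : ∀ x : Node, x ∈ star 𝓥 x := fun x => by
    have : x ∈ ⋃₀ 𝓥 := hcov ▸ Set.mem_univ x
    obtain ⟨V, hV, hxV⟩ := this
    exact ⟨V, ⟨hV, hxV⟩, hxV⟩
  have := uncountable_om
  obtain ⟨t, ht, _⟩ := exists_lvl (γ := 1)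
    (lt_of_lt_of_le Ordinal.one_lt_omega0 (Cardinal.omega0_le_ord.2 (Cardinal.aleph0_le_aleph 1)))
    (Classical.arbitrary Om)
  have htV : t ∈ ⋃₀ 𝓥 := hcov ▸ Set.mem_univ t
  obtain ⟨V, hV, htV⟩ := htV
  have hVunc := uncountable_of_isOpen (hopen V hV) htV (by rw [ht]; exact zero_lt_one)
  have hc := hccc ((fun y => {y}) '' V) ?_ ?_
  · refine hVunc ?_
    have h1 := hc.preimage_of_injOn (f := fun y : Node => ({y} : Set Node))
      (Set.singleton_injective.injOn)
    exact h1.mono fun y hy => Set.mem_image_of_mem (fun y : Node => ({y} : Set Node)) hy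
  · rintro _ ⟨y, hy, rfl⟩
    refine ⟨Set.finite_singleton y, ?_⟩
    rintro x rfl
    exact Set.inter_eq_right.2 (Set.singleton_subset_iff.2 (hmem x))
  · rintro _ ⟨y, hy, rfl⟩ _ ⟨z, hz, rfl⟩ hne ⟨r, ⟨_, hr⟩, hyr, hzr⟩
    have h1 := hr y (hyr rfl)
    have h2' : z ∈ star 𝓥 y := Set.mem_sUnion.2 ⟨V, And.intro hV hy, hz⟩
    have h2 : z ∈ star 𝓥 y ∩ r := ⟨h2', hzr rfl⟩
    rw [h1] at h2
    have h3 : z = y := h2
    exact hne (by rw [h3])

/-- There is an Eberlein-Grothendieck, hereditarily meta-Lindelöf, scattered Tychonoff space of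
height and cardinality `ω₁` such that the poset `P` fails the countable chain condition for all
choices of the sets `U x` and of the point-countable open refinement `𝓥` (and such choices
exist). -/
theorem result : ∃ (X : Type) (_ : TopologicalSpace X), T35Space X ∧ EberleinGrothendieck X ∧
    HereditarilyMetaLindelof X ∧ Scattered X ∧ HasHeight X (ω_ 1) ∧ #X = ℵ_ 1 ∧
    (∃ (U : X → Set X) (𝓥 : Set (Set X)), IsChoice U 𝓥) ∧
    ∀ (U : X → Set X) (𝓥 : Set (Set X)), IsChoice U 𝓥 → ¬ CCC 𝓥 :=
  ⟨Node, inferInstance, inferInstance, eberleinGrothendieck, hereditarilyMetaLindelof, scattered,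
    hasHeight, mk_node, exists_isChoice, fun _ _ h => never_ccc h⟩

end Pool.Agent.Results.MP_8301b4_gt.NeverCCC
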